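import Mathlib

set_option autoImplicit false
set_option linter.unusedSectionVars false

/-!
# MP_d39372_al, Q1: kernels of half-homomorphisms of Moufang loops are normal

Let `φ : Q → Q'` be a half-homomorphism from a Moufang loop to a loop and `K` its kernel. Write
`S x y k` for `φ (x (y k)) = φ (x y)`. For `k ∈ K` the middle and right Moufang identities give
`φ (x (y h⁻¹)) = φ (x (k y k))` with `h = x k x⁻¹`. Moreover `S x y`, as a condition on `k ∈ K`, is
stable under `k ↦ k⁻¹` and does not change when `(x, y)` is replaced by `(x y, y)`, `(x, y x)` or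
`(y x, y)`, hence also by `(y, x⁻¹)`. Playing these facts against each other shows that `S x y` is
invariant under conjugation by `x` and by `y`. If `S x y k` failed, then `x y`, `x (y k)` and
`x (k y k)` would have three different images in the two-element set `{φ x φ y, φ y φ x}`.
-/

namespace Pool.Agent.Results.MP_d39372_al.KernelNormal

/-- A loop: a two-sided identity and unique solvability of `a x = b` and `y a = b`. -/
structure IsLoop (Q : Type*) [Mul Q] [One Q] : Prop where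
  one_mul : ∀ a : Q, 1 * a = a
  mul_one : ∀ a : Q, a * 1 = a
  left : ∀ a b : Q, ∃! x : Q, a * x = b
  right : ∀ a b : Q, ∃! y : Q, y * a = b

/-- A Moufang loop: a loop with `x (y (x z)) = ((x y) x) z`. -/
structure IsMoufangLoop (Q : Type*) [Mul Q] [One Q] : Prop where
  isLoop : IsLoop Q
  moufang : ∀ x y z : Q, x * (y * (x * z)) = ((x * y) * x) * z

/-- A half-homomorphism. -/
def IsHalfHom {Q Q' : Type*} [Mul Q] [Mul Q'] (φ : Q → Q') : Prop :=
  ∀ a b : Q, φ (a * b) = φ a * φ b ∨ φ (a * b) = φ b * φ a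

/-- The kernel. -/
def Ker {Q Q' : Type*} [One Q'] (φ : Q → Q') : Set Q := {a | φ a = 1}

/-- A subloop: contains `1` and is closed under the multiplication and both divisions. -/
structure IsSubloop {Q : Type*} [Mul Q] [One Q] (K : Set Q) : Prop where
  one_mem : (1 : Q) ∈ K
  mul_mem : ∀ a ∈ K, ∀ b ∈ K, a * b ∈ K
  left_div : ∀ a ∈ K, ∀ b ∈ K, ∀ x : Q, a * x = b → x ∈ K
  right_div : ∀ a ∈ K, ∀ b ∈ K, ∀ y : Q, y * a = b → y ∈ K

/-- A normal subloop: `x K = K x`, `x (y K) = (x y) K` and `(K x) y = K (x y)`. -/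
structure IsNormalSubloop {Q : Type*} [Mul Q] [One Q] (K : Set Q) : Prop where
  isSubloop : IsSubloop K
  comm : ∀ x : Q, (fun k => x * k) '' K = (fun k => k * x) '' K
  left : ∀ x y : Q, (fun k => x * (y * k)) '' K = (fun k => (x * y) * k) '' K
  right : ∀ x y : Q, (fun k => (k * x) * y) '' K = (fun k => k * (x * y)) '' K

/-! ### Moufang loops -/

section basic

/-- A Moufang loop with its inverses. -/
structure ML (Q : Type*) [Mul Q] [One Q] [Inv Q] : Prop where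
  one_mul : ∀ a : Q, 1 * a = a
  mul_one : ∀ a : Q, a * 1 = a
  il : ∀ a b : Q, a⁻¹ * (a * b) = b
  li : ∀ a b : Q, a * (a⁻¹ * b) = b
  ri : ∀ a b : Q, (a * b) * b⁻¹ = a
  ir : ∀ a b : Q, (a * b⁻¹) * b = a
  mf : ∀ x y z : Q, x * (y * (x * z)) = ((x * y) * x) * z

variable {Q : Type*} [Mul Q] [One Q] [Inv Q] (h : ML Q)

include h

lemma mulInv (a : Q) : a * a⁻¹ = 1 := by
  have := h.li a 1
  rwa [h.mul_one] at this

lemma invMul (a : Q) : a⁻¹ * a = 1 := by
  have := h.il a 1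
  rwa [h.mul_one] at this

lemma ii (a : Q) : a⁻¹⁻¹ = a := by
  have := h.il a⁻¹ a
  rwa [invMul h, h.mul_one] at this

lemma lcanc {a b c : Q} (e : a * b = a * c) : b = c := by
  rw [← h.il a b, e, h.il]

lemma rcanc {a b c : Q} (e : b * a = c * a) : b = c := by
  rw [← h.ri b a, e, h.ri]

lemma aaip (a b : Q) : (a * b)⁻¹ = b⁻¹ * a⁻¹ := by
  have h1 : b * (a * b)⁻¹ = a⁻¹ := by
    have := h.ri a⁻¹ (a * b)
    rwa [h.il] at this
  rw [← h1, h.il]

lemma flex (x y : Q) : x * (y * x) = (x * y) * x := by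
  have := h.mf x y 1
  rwa [h.mul_one, h.mul_one] at this

lemma rmf (z x y : Q) : ((z * x) * y) * x = z * (x * (y * x)) := by
  have := congrArg (·⁻¹) (h.mf x⁻¹ y⁻¹ z⁻¹)
  simpa only [aaip h, ii h] using this

lemma lalt (x z : Q) : x * (x * z) = (x * x) * z := by
  have := h.mf x 1 z
  rwa [h.one_mul, h.mul_one] at this

lemma ralt (z x : Q) : (z * x) * x = z * (x * x) := by
  have := rmf h z x 1
  rwa [h.mul_one, h.one_mul] at this

lemma mid (x y z : Q) : (x * y) * (z * x) = x * ((y * z) * x) := by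
  have e1 : x * ((y * x⁻¹) * (x * (z * x))) = (x * y) * (z * x) := by
    rw [h.mf, ← flex h x (y * x⁻¹), h.ir]
  rw [← e1, ← rmf h, h.ir]

lemma j1 (x a y : Q) : (x * (a * y⁻¹)) * y = (x * y⁻¹) * (y * a) := by
  have := rmf h (x * y⁻¹) y (a * y⁻¹)
  rwa [h.ir, h.ir] at this

/-- The inner mapping `L(x, y)`. -/
def L {Q : Type*} [Mul Q] [Inv Q] (x y n : Q) : Q := (x * y)⁻¹ * (x * (y * n))

lemma L_spec (x y n : Q) : (x * y) * L x y n = x * (y * n) := h.li _ _

lemma L_unique {x y n w : Q} (e : (x * y) * w = x * (y * n)) : L x y n = w :=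
  lcanc h (by rw [L_spec h, e])

lemma fB (x y n : Q) : (y * n) * x⁻¹ = y * (L x y n * x⁻¹) := by
  have e := mid h x y (L x y n * x⁻¹)
  rw [h.ir, L_spec h] at e
  have := lcanc h e
  rw [this, h.ri]

lemma fA (x y n : Q) : x * L x y n = (x * y⁻¹) * (y * n) := by
  have e : y * n = (y * (L x y n * x⁻¹)) * x := by
    rw [← fB h, h.ir]
  rw [e, mid h, h.il, h.ir]

lemma bruck (x y n : Q) : (y * x) * n = y * (x * L x y n) := by
  have e := mid h y x (n * y⁻¹)
  rw [h.ir, j1 h, ← fA h] at e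
  exact e

lemma L_inv (x y n : Q) : L x y n⁻¹ = (L x y n)⁻¹ := by
  apply lcanc h (a := x)
  rw [fA h, ← j1 h]
  have := congrArg (·⁻¹) (fB h x y n)
  simp only [aaip h, ii h] at this
  rw [this, h.ir]

lemma n1 (x y n : Q) : (x * y) * (y * n) = ((x * y) * y) * L x y n := by
  set P := x * y with hP
  set w := L x y n with hw
  have hx : x = P * y⁻¹ := by rw [hP, h.ri]
  have e1 : P * w = (P * y⁻¹) * (y * n) := by rw [← hx]; exact L_spec h x y n
  have e2 := mid h P y⁻¹ ((y * n) * P⁻¹)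
  rw [h.ir, ← e1] at e2
  have e3 := lcanc h e2
  -- w = (y⁻¹ * ((y n) P⁻¹)) * P
  have e4 : y * (w * P⁻¹) = (y * n) * P⁻¹ := by
    rw [e3, h.ri, h.li]
  have e5 := mid h P y (w * P⁻¹)
  rw [h.ir, e4, h.ir] at e5
  exact e5.symm

/-- Conjugation. -/
def T {Q : Type*} [Mul Q] [Inv Q] (x k : Q) : Q := (x * k) * x⁻¹

/-- Inverse conjugation. -/
def Ti {Q : Type*} [Mul Q] [Inv Q] (x k : Q) : Q := x⁻¹ * (k * x)

lemma T_Ti (x k : Q) : T x (Ti x k) = k := by
  unfold T Ti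
  rw [h.li, h.ri]

lemma Ti_T (x k : Q) : Ti x (T x k) = k := by
  unfold T Ti
  rw [h.ir, h.il]

lemma Ti_eq (x k : Q) : Ti x k = T x⁻¹ k := by
  unfold T Ti
  rw [ii h]
  have : k * x = x * ((x⁻¹ * k) * x) := by
    rw [flex h, h.li]
  rw [this, h.il]

/-- The element `y⁻¹ (k y k)`. -/
def q {Q : Type*} [Mul Q] [Inv Q] (y k : Q) : Q := y⁻¹ * (k * (y * k))

lemma q_spec (y k : Q) : y * q y k = k * (y * k) := h.li _ _

lemma q_T (y k : Q) : q y (T y k) = (q y⁻¹ k⁻¹)⁻¹ := by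
  have e1 : (q y⁻¹ k⁻¹)⁻¹ = (k * (y * k)) * y⁻¹ := by
    unfold q
    simp only [aaip h, ii h]
    rw [flex h k y]
  rw [e1]
  unfold q T
  rw [flex h ((y * k) * y⁻¹) y, h.ir, lalt h, flex h y⁻¹, ← ralt h, h.il]

lemma T_inv (y k : Q) : T y⁻¹ k⁻¹ = (Ti y k)⁻¹ := by
  unfold T Ti
  simp only [aaip h, ii h]

end basic

/-! ### Half-homomorphisms -/

section hh

variable {Q Q' : Type*} [Mul Q] [One Q] [Inv Q] [Mul Q'] [One Q'] (h : ML Q) (h' : IsLoop Q')
  {φ : Q → Q'} (hφ : IsHalfHom φ)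

omit [Inv Q] in
include h' in
lemma lc {a b c : Q'} (e : a * b = a * c) : b = c :=
  (h'.left a (a * c)).unique e rfl

omit [Inv Q] in
include h' in
lemma rc {a b c : Q'} (e : b * a = c * a) : b = c :=
  (h'.right a (c * a)).unique e rfl

include h h' hφ

lemma map_one' : φ 1 = 1 := by
  have : φ 1 * φ 1 = φ 1 * 1 := by
    rw [h'.mul_one]
    have := hφ 1 1
    rw [h.one_mul, or_self] at this
    exact this.symm
  exact lc h' this

lemma kr {a k : Q} (hk : φ k = 1) : φ (a * k) = φ a := by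
  rcases hφ a k with e | e <;> rw [e, hk]
  · exact h'.mul_one _
  · exact h'.one_mul _

lemma kl {a k : Q} (hk : φ k = 1) : φ (k * a) = φ a := by
  rcases hφ k a with e | e <;> rw [e, hk]
  · exact h'.one_mul _
  · exact h'.mul_one _

lemma kr_iff {a k : Q} : φ (a * k) = φ a ↔ φ k = 1 := by
  refine ⟨fun e => ?_, kr h h' hφ⟩
  rcases hφ a k with e1 | e1
  · exact lc h' (a := φ a) (by rw [← e1, e, h'.mul_one])
  · exact rc h' (a := φ a) (by rw [← e1, e, h'.one_mul])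

lemma kl_iff {a k : Q} : φ (k * a) = φ a ↔ φ k = 1 := by
  refine ⟨fun e => ?_, kl h h' hφ⟩
  rcases hφ k a with e1 | e1
  · exact rc h' (a := φ a) (by rw [← e1, e, h'.one_mul])
  · exact lc h' (a := φ a) (by rw [← e1, e, h'.mul_one])

lemma kinv {k : Q} (hk : φ k = 1) : φ k⁻¹ = 1 := by
  have := kl h h' hφ (a := k⁻¹) hk
  rw [mulInv h, map_one' h h' hφ] at this
  exact this.symm

lemma kT {x k : Q} (hk : φ k = 1) : φ (T x k) = 1 := by
  rw [← kl_iff h h' hφ (a := x)]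
  unfold T
  rw [h.ir]
  exact kr h h' hφ hk

lemma kTi {x k : Q} (hk : φ k = 1) : φ (Ti x k) = 1 := by
  rw [Ti_eq h]
  exact kT h h' hφ hk

lemma kq {y k : Q} (hk : φ k = 1) : φ (q y k) = 1 := by
  rw [← kr_iff h h' hφ (a := y), q_spec h, kl h h' hφ hk, kr h h' hφ hk]

omit h h' hφ in
/-- The condition `φ (x (y k)) = φ (x y)`. -/
def S (φ : Q → Q') (x y k : Q) : Prop := φ (x * (y * k)) = φ (x * y)

lemma S_iff {x y k : Q} : S φ x y k ↔ φ (L x y k) = 1 := by
  unfold S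
  rw [← L_spec h]
  exact kr_iff h h' hφ

lemma S_inv {x y k : Q} : S φ x y k⁻¹ ↔ S φ x y k := by
  rw [S_iff h h' hφ, S_iff h h' hφ, L_inv h]
  refine ⟨fun e => ?_, fun e => kinv h h' hφ e⟩
  have := kinv h h' hφ e
  rwa [ii h] at this

lemma p1 {x y k : Q} (hk : φ k = 1) : φ ((k * x) * y) = φ (x * (y * k⁻¹)) := by
  have e := mid h k x (y * k⁻¹)
  rw [h.ir] at e
  rw [e, kl h h' hφ hk, kr h h' hφ hk]

lemma P1 {x y k : Q} (hk : φ k = 1) : φ ((k * x) * y) = φ (x * y) ↔ S φ x y k := by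
  rw [p1 h h' hφ hk, ← S_inv h h' hφ (x := x) (y := y) (k := k)]
  rfl

lemma EA {x y k : Q} : S φ x y k ↔ S φ (x * y) y k := by
  rw [S_iff h h' hφ]
  unfold S
  rw [n1 h]
  exact (kr_iff h h' hφ).symm

lemma EB {x y k : Q} : S φ x y k ↔ S φ x (y * x) k := by
  rw [S_iff h h' hφ]
  unfold S
  rw [bruck h, h.mf, ← flex h x y]
  exact (kr_iff h h' hφ).symm

lemma EC {x y k : Q} (hk : φ k = 1) : S φ x y k ↔ S φ (y * x) y k := by
  rw [← P1 h h' hφ hk, ← P1 h h' hφ hk]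
  set w := ((k * x) * y) * (x * y)⁻¹ with hw
  have e1 : (k * x) * y = w * (x * y) := by rw [hw, h.ir]
  have e2 : k * (y * x) = (w * y) * x := by
    have hL : L y⁻¹ x⁻¹ k⁻¹ = w⁻¹ := by
      apply L_unique h
      have := congrArg (·⁻¹) e1
      simp only [aaip h] at this
      exact this.symm
    have e3 := bruck h y⁻¹ x⁻¹ k⁻¹
    rw [hL] at e3
    have := congrArg (·⁻¹) e3
    simpa only [aaip h, ii h] using this
  have e4 : (k * (y * x)) * y = w * ((y * x) * y) := by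
    rw [e2, rmf h, flex h y x]
  rw [e1, e4, kl_iff h h' hφ, kl_iff h h' hφ]

lemma S_xy_xinv {x y k : Q} : S φ x y k ↔ S φ (x * y) x⁻¹ k := by
  rw [EA h h' hφ, EB h h' hφ (x := x * y) (y := x⁻¹), h.il]

lemma S_rot {x y k : Q} (hk : φ k = 1) : S φ x y k ↔ S φ y x⁻¹ k := by
  rw [S_xy_xinv h h' hφ, EC h h' hφ hk, h.il]

lemma S_rot' {x y k : Q} (hk : φ k = 1) : S φ x y k ↔ S φ y⁻¹ x k := by
  rw [S_rot h h' hφ (x := y⁻¹) (y := x) hk, ii h]

lemma star0 {x y k : Q} (hk : φ k = 1) :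
    φ (x * (y * (T x k)⁻¹)) = φ (x * (k * (y * k))) := by
  rw [← p1 h h' hφ (kT h h' hφ hk)]
  have e : T x k * x = x * k := by unfold T; rw [h.ir]
  rw [e, ← rmf h, kr h h' hφ hk]

lemma star {x y k : Q} (hk : φ k = 1) : S φ x y (T x k) ↔ S φ x y (q y k) := by
  rw [← S_inv h h' hφ]
  unfold S
  rw [star0 h h' hφ hk, q_spec h]

lemma six {x y k : Q} (hk : φ k = 1) :
    S φ x y (T y (Ti x k)) ↔ S φ x y (Ti y k) := by
  have hk' := kinv h h' hφ hk
  have hTi := kTi h h' hφ (x := x) hk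
  have hTi' := kTi h h' hφ (x := y) hk
  rw [S_rot h h' hφ (kT h h' hφ hTi), star h h' hφ hTi, Ti_eq h x k, q_T h, S_inv h h' hφ, ii h,
    ← S_rot h h' hφ (kq h h' hφ hk'), S_rot' h h' hφ (kq h h' hφ hk'),
    ← star h h' hφ hk', T_inv h, S_inv h h' hφ, ← S_rot' h h' hφ hTi']

lemma dd {x y k : Q} (hk : φ k = 1) : S φ x y (T x k) ↔ S φ x y (T y k) := by
  have hq := kq h h' hφ (y := x⁻¹) hk
  have a1 : S φ x y (T (x * y) k) ↔ S φ x y (T x k) := by
    rw [EA h h' hφ, star h h' hφ hk, ← EA h h' hφ, ← star h h' hφ hk]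
  have a2 : S φ x y (T (x * y) k) ↔ S φ x y (T y k) := by
    rw [S_xy_xinv h h' hφ, star h h' hφ hk, ← S_xy_xinv h h' hφ, S_rot h h' hφ hq,
      ← star h h' hφ hk, ← S_rot h h' hφ (kT h h' hφ hk)]
  rw [← a1, a2]

lemma G {x y k : Q} (hk : φ k = 1) : S φ x y k ↔ S φ x y (Ti y k) := by
  have := dd h h' hφ (x := x) (y := y) (kTi h h' hφ (x := x) hk)
  rw [T_Ti h, six h h' hφ hk] at this
  exact this

lemma G1 {x y k : Q} (hk : φ k = 1) : S φ x y (T y k) ↔ S φ x y k := by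
  rw [G h h' hφ (kT h h' hφ hk), Ti_T h]

lemma G2 {x y k : Q} (hk : φ k = 1) : S φ x y (T x k) ↔ S φ x y k := by
  rw [dd h h' hφ hk, G1 h h' hφ hk]

lemma S_all (x y : Q) {k : Q} (hk : φ k = 1) : S φ x y k := by
  by_contra hS
  -- `x (y k)` and `x y` differ
  have d1 : φ (x * (y * k)) ≠ φ (x * y) := hS
  have d2 : φ (x * (k * (y * k))) ≠ φ (x * (y * k)) := by
    intro e
    have s1 : S φ x (y * k) (Ti (y * k) k) := by
      unfold S Ti
      rw [h.li]
      exact e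
    rw [← G h h' hφ hk, ← S_inv h h' hφ] at s1
    unfold S at s1
    rw [h.ri] at s1
    exact d1 s1.symm
  have d3 : φ (x * (k * (y * k))) ≠ φ (x * y) := by
    rw [← star0 h h' hφ hk]
    intro e
    have s1 : S φ x y (T x k)⁻¹ := e
    rw [S_inv h h' hφ, G2 h h' hφ hk] at s1
    exact hS s1
  have t1 : φ (x * y) = φ x * φ y ∨ φ (x * y) = φ y * φ x := hφ x y
  have t2 : φ (x * (y * k)) = φ x * φ y ∨ φ (x * (y * k)) = φ y * φ x := by
    have := hφ x (y * k)
    rwa [kr h h' hφ hk] at this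
  have t3 : φ (x * (k * (y * k))) = φ x * φ y ∨ φ (x * (k * (y * k))) = φ y * φ x := by
    have := hφ x (k * (y * k))
    rwa [kl h h' hφ hk, kr h h' hφ hk] at this
  rcases t1 with t1 | t1 <;> rcases t2 with t2 | t2 <;> rcases t3 with t3 | t3 <;>
    simp_all

end hh

theorem result (Q Q' : Type*) [Mul Q] [One Q] [Mul Q'] [One Q'] (hQ : IsMoufangLoop Q)
    (hQ' : IsLoop Q') (φ : Q → Q') (hφ : IsHalfHom φ) : IsNormalSubloop (Ker φ) := by
  obtain ⟨hl, hm⟩ := hQ
  have lcn : ∀ {a b c : Q}, a * b = a * c → b = c := fun {a b c} e =>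
    (hl.left a (a * c)).unique e rfl
  choose i hi using fun a : Q => (hl.left a 1).exists
  let _ : Inv Q := ⟨i⟩
  have hi' : ∀ a : Q, a * a⁻¹ = 1 := hi
  have il : ∀ a b : Q, a⁻¹ * (a * b) = b := by
    intro a b
    have := hm a a⁻¹ b
    rw [hi', hl.one_mul] at this
    exact lcn this
  have im : ∀ a : Q, a⁻¹ * a = 1 := by
    intro a
    have := il a 1
    rwa [hl.mul_one] at this
  have iv : ∀ a : Q, a⁻¹⁻¹ = a := by
    intro a
    have := il a⁻¹ a
    rwa [im, hl.mul_one] at this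
  have li : ∀ a b : Q, a * (a⁻¹ * b) = b := by
    intro a b
    have := il a⁻¹ b
    rwa [iv] at this
  have ri : ∀ a b : Q, (a * b) * b⁻¹ = a := by
    intro a b
    have := hm b (b⁻¹ * a) b⁻¹
    rw [hi', hl.mul_one, li] at this
    exact this.symm
  have ir : ∀ a b : Q, (a * b⁻¹) * b = a := by
    intro a b
    have := ri a b⁻¹
    rwa [iv] at this
  have h : ML Q := ⟨hl.one_mul, hl.mul_one, il, li, ri, ir, hm⟩
  have hS : ∀ (x y : Q) {k : Q}, φ k = 1 → φ (x * (y * k)) = φ (x * y) :=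
    fun x y {k} hk => S_all h hQ' hφ x y hk
  have hS' : ∀ (x y : Q) {k : Q}, φ k = 1 → φ ((k * x) * y) = φ (x * y) :=
    fun x y {k} hk => (P1 h hQ' hφ hk).2 (S_all h hQ' hφ x y hk)
  refine ⟨⟨map_one' h hQ' hφ, ?_, ?_, ?_⟩, ?_, ?_, ?_⟩
  · intro a ha b hb
    exact (kr h hQ' hφ hb).trans ha
  · intro a ha b hb x e
    have : φ (a * x) = φ x := kl h hQ' hφ ha
    rw [e] at this
    exact this.symm.trans hb
  · intro a ha b hb y e
    have : φ (y * a) = φ y := kr h hQ' hφ ha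
    rw [e] at this
    exact this.symm.trans hb
  · intro x
    ext z
    constructor
    · rintro ⟨k, hk, rfl⟩
      exact ⟨T x k, kT h hQ' hφ hk, by simp only [T]; rw [ir]⟩
    · rintro ⟨k, hk, rfl⟩
      exact ⟨Ti x k, kTi h hQ' hφ hk, by simp only [Ti]; rw [li]⟩
  · intro x y
    ext z
    constructor
    · rintro ⟨k, hk, rfl⟩
      refine ⟨(x * y)⁻¹ * (x * (y * k)), ?_, li _ _⟩
      show φ _ = 1
      rw [← kr_iff h hQ' hφ (a := x * y), li]
      exact hS x y hk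
    · rintro ⟨k, hk, rfl⟩
      refine ⟨y⁻¹ * (x⁻¹ * ((x * y) * k)), ?_, by simp only [li]⟩
      show φ _ = 1
      rw [← kr_iff h hQ' hφ (a := y), li, hS x⁻¹ (x * y) hk, il]
  · intro x y
    ext z
    constructor
    · rintro ⟨k, hk, rfl⟩
      refine ⟨((k * x) * y) * (x * y)⁻¹, ?_, ir _ _⟩
      show φ _ = 1
      rw [← kl_iff h hQ' hφ (a := x * y), ir]
      exact hS' x y hk
    · rintro ⟨k, hk, rfl⟩
      refine ⟨((k * (x * y)) * y⁻¹) * x⁻¹, ?_, by simp only [ir]⟩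
      show φ _ = 1
      rw [← kl_iff h hQ' hφ (a := x), ir, hS' (x * y) y⁻¹ hk, ri]

end Pool.Agent.Results.MP_d39372_al.KernelNormal
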